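import Mathlib
import Pool.Agent.helper1.MST.Param

/-!
For all large `m` there is an instance of the minimum spanning tree problem with `m` edges on which
the (1+1) EA needs an expected number of at least `c * m ^ (2 + 1/34)` rounds. In particular no bound
of order `m ^ 2 * log m` holds for all weights.
-/

namespace Pool.Agent.Results.MP_8f38de_lc.PolyLowerBound

open Pool.Agent.helper1.MST

theorem result : ∃ c : ℝ, 0 < c ∧ ∃ m₀ : ℕ, ∀ m : ℕ, m₀ ≤ m →
    ∃ I : Inst, I.m = m ∧ ENNReal.ofReal (c * (m : ℝ) ^ (2 + 1/34 : ℝ)) ≤ I.expT :=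
  exists_inst

end Pool.Agent.Results.MP_8f38de_lc.PolyLowerBound
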